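import Mathlib
import Pool.Agent.N991.MK.CThm2
import Pool.Agent.N991.MK.UvT

/-!
# The universal ultraviolet law of the `a`-function, the bracket of the single integral
-/

open MeasureTheory Pool.Agent.N991.MK Pool.Agent.N989.MK Filter Matrix
open scoped Topology Matrix.Norms.Frobenius
open Pool.Agent.H906R3.YM Pool.Agent.W793.YM Pool.Agent.TH618.YM Pool.Agent.N984.TW
open Pool.Agent.N109.T3 (nz gs cvR)
open Pool.Agent.N839.T3 (em SD gs_eq nz_pos gs_int_pos)
open Pool.Agent.N453.T3 (ga ga_pos ga_int Ig gs_ga Ig_half Ig_eq Ig_pos cvR_ga2 mom2 mom4)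

namespace Pool.Agent.N565.AT

set_option linter.unusedSectionVars false

noncomputable section

variable {N n : ℕ} {G : Subgroup (UN N)} {B : Frame G n} {hG : IsClosed (G : Set (UN N))}
  {ι : Type*} {l : Filter ι} {h : ι → ℝ}

/-- powers of scaling limits -/
lemma sd_pw {f : ι → G → ℝ} {F : (Fin n → ℝ) → ℝ} (H : SD B hG l h f F) (k : ℕ) :
    SD B hG l h (fun i x => f i x ^ (k + 1)) (fun x => F x ^ (k + 1)) := by
  induction k with
  | zero => exact H.congr (fun i x => pow_one _) fun x => pow_one _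
  | succ k ih => exact (ih.mul H).congr (fun i x => pow_succ _ _) fun x => pow_succ _ _

variable [CompactSpace G] [MeasurableSpace G] [BorelSpace G] [SecondCountableTopology G]
  {μ : Measure G} [IsProbabilityMeasure μ] [μ.IsHaarMeasure] [μ.IsMulRightInvariant]
  [μ.IsInvInvariant]

/-- limits of quotients of integrals -/
lemma quot_lim [l.IsCountablyGenerated] {f g : ι → G → ℝ} {F Γ : (Fin n → ℝ) → ℝ}
    (H : SD B hG l h f F) (K : SD B hG l h g Γ) (hΓ : ∫ x, Γ x ≠ 0) :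
    Tendsto (fun i => (∫ z, f i z ∂μ) / ∫ z, g i z ∂μ) l (𝓝 ((∫ x, F x) / ∫ x, Γ x)) := by
  have h1 := Pool.Agent.N839.T3.SD.int_lim (μ := μ) H
  have h2 := Pool.Agent.N839.T3.SD.int_lim (μ := μ) K
  have h0 : (∫ x, gs (n := n) x) ≠ 0 := gs_int_pos.ne'
  have h3 := h1.div h2 (div_ne_zero hΓ h0)
  rw [div_div_div_cancel_right₀ h0] at h3
  refine h3.congr fun i => ?_
  show (∫ z, f i z ∂μ) / nz μ (h i) / ((∫ z, g i z ∂μ) / nz μ (h i)) = _
  rw [div_div_div_cancel_right₀ (nz_pos (μ := μ) (h i)).ne']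

lemma ga_pow5 (x : Fin n → ℝ) : ga (1 / 8) x ^ 5 = ga (5 / 8) x := by
  unfold ga
  rw [← Real.exp_nat_mul]
  congr 1
  push_cast
  ring

/-- the expansion of the fifth power -/
lemma expand5 {u w : G → ℝ} (cu : Continuous u) (cw : Continuous w) {t : ℝ} (ht : t ≠ 0) :
    ∫ x, (u x + w x / t) ^ 5 ∂μ = (∫ x, u x ^ 5 ∂μ) + 5 * (∫ x, u x ^ 4 * w x ∂μ) / t +
      10 * (∫ x, u x ^ 3 * w x ^ 2 ∂μ) / t ^ 2 + 10 * (∫ x, u x ^ 2 * w x ^ 3 ∂μ) / t ^ 3 +
      5 * (∫ x, u x * w x ^ 4 ∂μ) / t ^ 4 + (∫ x, w x ^ 5 ∂μ) / t ^ 5 := by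
  have i0 : Integrable (fun x => u x ^ 5) μ := integrable_of_cont (cu.pow 5)
  have i1 : Integrable (fun x => u x ^ 4 * w x) μ := integrable_of_cont ((cu.pow 4).mul cw)
  have i2 : Integrable (fun x => u x ^ 3 * w x ^ 2) μ :=
    integrable_of_cont ((cu.pow 3).mul (cw.pow 2))
  have i3 : Integrable (fun x => u x ^ 2 * w x ^ 3) μ :=
    integrable_of_cont ((cu.pow 2).mul (cw.pow 3))
  have i4 : Integrable (fun x => u x * w x ^ 4) μ := integrable_of_cont (cu.mul (cw.pow 4))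
  have i5 : Integrable (fun x => w x ^ 5) μ := integrable_of_cont (cw.pow 5)
  have e : ∀ x, (u x + w x / t) ^ 5 = u x ^ 5 + 5 / t * (u x ^ 4 * w x) +
      10 / t ^ 2 * (u x ^ 3 * w x ^ 2) + 10 / t ^ 3 * (u x ^ 2 * w x ^ 3) +
      5 / t ^ 4 * (u x * w x ^ 4) + 1 / t ^ 5 * w x ^ 5 := by
    intro x
    field_simp
    ring
  simp only [e]
  have j1 : Integrable (fun x => u x ^ 5 + 5 / t * (u x ^ 4 * w x)) μ :=
    i0.add (i1.const_mul _)
  have j2 : Integrable (fun x => u x ^ 5 + 5 / t * (u x ^ 4 * w x) +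
      10 / t ^ 2 * (u x ^ 3 * w x ^ 2)) μ := j1.add (i2.const_mul _)
  have j3 : Integrable (fun x => u x ^ 5 + 5 / t * (u x ^ 4 * w x) +
      10 / t ^ 2 * (u x ^ 3 * w x ^ 2) + 10 / t ^ 3 * (u x ^ 2 * w x ^ 3)) μ :=
    j2.add (i3.const_mul _)
  have j4 : Integrable (fun x => u x ^ 5 + 5 / t * (u x ^ 4 * w x) +
      10 / t ^ 2 * (u x ^ 3 * w x ^ 2) + 10 / t ^ 3 * (u x ^ 2 * w x ^ 3) +
      5 / t ^ 4 * (u x * w x ^ 4)) μ := j3.add (i4.const_mul _)
  rw [integral_add j4 (i5.const_mul _), integral_add j3 (i4.const_mul _),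
    integral_add j2 (i3.const_mul _), integral_add j1 (i2.const_mul _),
    integral_add i0 (i1.const_mul _), integral_const_mul, integral_const_mul,
    integral_const_mul, integral_const_mul, integral_const_mul]
  ring

/-- **the bracket of the single integral** -/
theorem br1 [l.IsCountablyGenerated] {u w : ι → G → ℝ} {a : ℝ} (hu : ∀ i x, 0 < u i x)
    (hv : ∀ i x, 0 < u i x + w i x / h i) (H : SD B hG l h u (ga (1 / 8)))
    (K : SD B hG l h w (fun x => a / 8 * nE x ^ 2 * ga (1 / 8) x)) :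
    Tendsto (fun i => h i ^ 2 * (4 * Real.log (∫ x, u i x ^ 5 ∂μ) +
      Real.log (∫ x, (u i x + w i x / h i) ^ 5 ∂μ) -
      5 * Real.log (∫ x, u i x ^ 4 * (u i x + w i x / h i) ∂μ))) l (𝓝 (n / 5 * a ^ 2)) := by
  have hI : 0 < Ig n (5 / 8) := Ig_pos (by norm_num)
  -- the scaling limits of the products
  have s0 := sd_pw H 4
  have s1 := (sd_pw H 3).mul K
  have s2 := (sd_pw H 2).mul (sd_pw K 1)
  have s3 := (sd_pw H 1).mul (sd_pw K 2)
  have s4 := H.mul (sd_pw K 3)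
  have s5 := sd_pw K 4
  -- the Gaussian integrals
  have f0 : ∫ x : Fin n → ℝ, ga (1 / 8) x ^ (4 + 1) = Ig n (5 / 8) := by
    unfold Ig
    refine integral_congr_ae (Eventually.of_forall fun x => ?_)
    exact ga_pow5 x
  have f1 : ∫ x : Fin n → ℝ, ga (1 / 8) x ^ (3 + 1) * (a / 8 * nE x ^ 2 * ga (1 / 8) x) =
      a * n / 10 * Ig n (5 / 8) := by
    have e : ∀ x : Fin n → ℝ, ga (1 / 8) x ^ (3 + 1) * (a / 8 * nE x ^ 2 * ga (1 / 8) x) =
        a / 8 * (nE (x + 0) ^ 2 * ga (5 / 8) x) := by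
      intro x
      rw [add_zero, ← ga_pow5]
      ring
    simp only [e]
    rw [integral_const_mul, (mom2 (0 : Fin n → ℝ) (by norm_num)).2]
    have e0 : nE (0 : Fin n → ℝ) ^ 2 = 0 := by
      rw [Pool.Agent.N991.MK.nE_sq]
      simp
    rw [e0]
    ring
  have f2 : ∫ x : Fin n → ℝ, ga (1 / 8) x ^ (2 + 1) * (a / 8 * nE x ^ 2 * ga (1 / 8) x) ^ (1 + 1) =
      a ^ 2 * (n * (n + 2)) / 100 * Ig n (5 / 8) := by
    have e : ∀ x : Fin n → ℝ, ga (1 / 8) x ^ (2 + 1) *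
        (a / 8 * nE x ^ 2 * ga (1 / 8) x) ^ (1 + 1) =
        a ^ 2 / 64 * (nE (x + 0) ^ 4 * ga (5 / 8) x) := by
      intro x
      rw [add_zero, ← ga_pow5]
      ring
    simp only [e]
    rw [integral_const_mul, (mom4 (0 : Fin n → ℝ) (by norm_num)).2]
    have e0 : nE (0 : Fin n → ℝ) ^ 2 = 0 := by
      rw [Pool.Agent.N991.MK.nE_sq]
      simp
    have e1 : nE (0 : Fin n → ℝ) ^ 4 = 0 := by
      have : nE (0 : Fin n → ℝ) ^ 4 = (nE (0 : Fin n → ℝ) ^ 2) ^ 2 := by ring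
      rw [this, e0]
      ring
    rw [e0, e1]
    ring
  have hne : ∫ x : Fin n → ℝ, ga (1 / 8) x ^ (4 + 1) ≠ 0 := by rw [f0]; exact hI.ne'
  have q1 := quot_lim (μ := μ) s1 s0 hne
  have q2 := quot_lim (μ := μ) s2 s0 hne
  have q3 := quot_lim (μ := μ) s3 s0 hne
  have q4 := quot_lim (μ := μ) s4 s0 hne
  have q5 := quot_lim (μ := μ) s5 s0 hne
  rw [f1, f0, mul_div_cancel_right₀ _ hI.ne'] at q1
  rw [f2, f0, mul_div_cancel_right₀ _ hI.ne'] at q2
  have hinv : Tendsto (fun i => (h i)⁻¹) l (𝓝 0) := tendsto_inv_atTop_zero.comp H.top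
  have hr := ((q3.const_mul 10).add ((q4.const_mul 5).mul hinv)).add (q5.mul (hinv.pow 2))
  have key := log_bracket H.top q1 q2 hr
  have e : 10 * (a ^ 2 * (n * (n + 2)) / 100 - (a * n / 10) ^ 2) = n / 5 * a ^ 2 := by ring
  rw [e] at key
  refine key.congr' ?_
  filter_upwards [H.top.eventually_gt_atTop 0] with i hi
  have cu := H.cont i
  have cw := K.cont i
  have hi' := hi.ne'
  have J0 : 0 < ∫ x, u i x ^ 5 ∂μ := by
    have hc : Continuous fun x => u i x ^ 5 := cu.pow 5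
    rw [integral_pos_iff_support_of_nonneg (fun y => (pow_pos (hu i y) 5).le)
      (integrable_of_cont hc)]
    have : Function.support (fun x => u i x ^ 5) = Set.univ := by
      ext y
      simp [(hu i y).ne']
    rw [this]
    simp
  have JA : 0 < ∫ x, (u i x + w i x / h i) ^ 5 ∂μ := by
    have hc : Continuous fun x => (u i x + w i x / h i) ^ 5 := (cu.add (cw.div_const _)).pow 5
    rw [integral_pos_iff_support_of_nonneg (fun y => (pow_pos (hv i y) 5).le)
      (integrable_of_cont hc)]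
    have : Function.support (fun x => (u i x + w i x / h i) ^ 5) = Set.univ := by
      ext y
      simp [(hv i y).ne']
    rw [this]
    simp
  have JC : 0 < ∫ x, u i x ^ 4 * (u i x + w i x / h i) ∂μ := by
    have hc : Continuous fun x => u i x ^ 4 * (u i x + w i x / h i) :=
      (cu.pow 4).mul (cu.add (cw.div_const _))
    rw [integral_pos_iff_support_of_nonneg
      (fun y => (mul_pos (pow_pos (hu i y) 4) (hv i y)).le) (integrable_of_cont hc)]
    have : Function.support (fun x => u i x ^ 4 * (u i x + w i x / h i)) = Set.univ := by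
      ext y
      simp [(hu i y).ne', (hv i y).ne']
    rw [this]
    simp
  have eA := expand5 (μ := μ) cu cw hi'
  have eC : ∫ x, u i x ^ 4 * (u i x + w i x / h i) ∂μ =
      (∫ x, u i x ^ 5 ∂μ) + (∫ x, u i x ^ 4 * w i x ∂μ) / h i := by
    have e1 : ∀ x, u i x ^ 4 * (u i x + w i x / h i) =
        u i x ^ 5 + 1 / h i * (u i x ^ 4 * w i x) := by
      intro x
      ring
    simp only [e1]
    have k0 : Integrable (fun x => u i x ^ 5) μ := integrable_of_cont (cu.pow 5)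
    have k1 : Integrable (fun x => u i x ^ 4 * w i x) μ := integrable_of_cont ((cu.pow 4).mul cw)
    rw [integral_add k0 (k1.const_mul _), integral_const_mul]
    ring
  norm_num only [Nat.reduceAdd]
  set j0 := ∫ x, u i x ^ 5 ∂μ with hj0
  set j1 := ∫ x, u i x ^ 4 * w i x ∂μ with hj1
  set j2 := ∫ x, u i x ^ 3 * w i x ^ 2 ∂μ with hj2
  set j3 := ∫ x, u i x ^ 2 * w i x ^ 3 ∂μ with hj3
  set j4 := ∫ x, u i x * w i x ^ 4 ∂μ with hj4
  set j5 := ∫ x, w i x ^ 5 ∂μ with hj5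
  have hj0' := J0.ne'
  have eA' : ∫ x, (u i x + w i x / h i) ^ 5 ∂μ = j0 * (1 + 5 * (j1 / j0) / h i +
      10 * (j2 / j0) / h i ^ 2 + (10 * (j3 / j0) + 5 * (j4 / j0) * (h i)⁻¹ +
        j5 / j0 * (h i)⁻¹ ^ 2) / h i ^ 3) := by
    rw [eA]
    field_simp
    ring
  have eC' : ∫ x, u i x ^ 4 * (u i x + w i x / h i) ∂μ = j0 * (1 + j1 / j0 / h i) := by
    rw [eC]
    field_simp
  rw [eA'] at JA ⊢
  rw [eC'] at JC ⊢
  have pA := (pos_iff_pos_of_mul_pos JA).1 J0
  have pC := (pos_iff_pos_of_mul_pos JC).1 J0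
  rw [Real.log_mul hj0' pA.ne', Real.log_mul hj0' pC.ne']
  ring

end

end Pool.Agent.N565.AT
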