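import Mathlib
import Pool.Agent.N991.MK.CGDefs

/-!
# Young's inequality for the convolutions of `n` factors and the `a`-functions
-/

open MeasureTheory
open Pool.Agent.N991.MK

namespace Pool.Agent.N565.AT

set_option linter.unusedSectionVars false

noncomputable section

variable {G : Type*} [Group G] [TopologicalSpace G] [IsTopologicalGroup G] [CompactSpace G]
  [MeasurableSpace G] [BorelSpace G] [SecondCountableTopology G]
  {μ : Measure G} [IsProbabilityMeasure μ] [μ.IsMulLeftInvariant] [μ.IsMulRightInvariant]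
  [μ.IsInvInvariant]

/-- the weighted inequality between the geometric and arithmetic means of three numbers -/
lemma amgm3 {a b c : ℝ} (ha : 0 < a) (hb : 0 < b) (hc : 0 < c) (h : a + b + c = 1)
    {x y z : ℝ} (hx : 0 < x) (hy : 0 < y) (hz : 0 < z) :
    x ^ a * y ^ b * z ^ c ≤ a * x + b * y + c * z ∧
      (x ^ a * y ^ b * z ^ c = a * x + b * y + c * z → y = z) := by
  set m : ℝ := x ^ a * y ^ b * z ^ c with hm
  have hm0 : 0 < m := by positivity
  have hlog : Real.log m = a * Real.log x + b * Real.log y + c * Real.log z := by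
    rw [hm, Real.log_mul (by positivity) (by positivity), Real.log_mul (by positivity)
      (by positivity), Real.log_rpow hx, Real.log_rpow hy, Real.log_rpow hz]
  -- `log (x / m) ≤ x / m - 1`
  have key : ∀ t : ℝ, 0 < t → Real.log t - Real.log m ≤ t / m - 1 := by
    intro t ht
    have := Real.log_le_sub_one_of_pos (div_pos ht hm0)
    rwa [Real.log_div ht.ne' hm0.ne'] at this
  have keys : ∀ t : ℝ, 0 < t → t ≠ m → Real.log t - Real.log m < t / m - 1 := by
    intro t ht htm
    have := Real.log_lt_sub_one_of_pos (div_pos ht hm0) (by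
      intro h1
      exact htm ((div_eq_one_iff_eq hm0.ne').1 h1))
    rwa [Real.log_div ht.ne' hm0.ne'] at this
  have k1 := key x hx
  have k2 := key y hy
  have k3 := key z hz
  have sum0 : a * (Real.log x - Real.log m) + b * (Real.log y - Real.log m) +
      c * (Real.log z - Real.log m) = 0 := by
    have : Real.log m * (a + b + c) = Real.log m := by rw [h, mul_one]
    nlinarith
  have hdiv : ∀ t : ℝ, (t / m - 1) * m = t - m := by
    intro t
    field_simp
  refine ⟨?_, ?_⟩
  · have h1 : 0 ≤ a * (x / m - 1) + b * (y / m - 1) + c * (z / m - 1) := by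
      have := mul_le_mul_of_nonneg_left k1 ha.le
      have := mul_le_mul_of_nonneg_left k2 hb.le
      have := mul_le_mul_of_nonneg_left k3 hc.le
      linarith
    have h2 := mul_nonneg h1 hm0.le
    have h3 : (a * (x / m - 1) + b * (y / m - 1) + c * (z / m - 1)) * m =
        a * x + b * y + c * z - (a + b + c) * m := by
      have e1 := hdiv x
      have e2 := hdiv y
      have e3 := hdiv z
      linear_combination a * e1 + b * e2 + c * e3
    rw [h3, h, one_mul] at h2
    linarith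
  · intro heq
    have h3 : (a * (x / m - 1) + b * (y / m - 1) + c * (z / m - 1)) * m =
        a * x + b * y + c * z - (a + b + c) * m := by
      have e1 := hdiv x
      have e2 := hdiv y
      have e3 := hdiv z
      linear_combination a * e1 + b * e2 + c * e3
    rw [h, one_mul, ← heq, sub_self] at h3
    have h4 : a * (x / m - 1) + b * (y / m - 1) + c * (z / m - 1) = 0 := by
      rcases mul_eq_zero.1 h3 with h | h
      · exact h
      · exact absurd h hm0.ne'
    have hym : y = m := by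
      by_contra hne
      have := mul_lt_mul_of_pos_left (keys y hy hne) hb
      have := mul_le_mul_of_nonneg_left k1 ha.le
      have := mul_le_mul_of_nonneg_left k3 hc.le
      linarith
    have hzm : z = m := by
      by_contra hne
      have := mul_lt_mul_of_pos_left (keys z hz hne) hc
      have := mul_le_mul_of_nonneg_left k1 ha.le
      have := mul_le_mul_of_nonneg_left k2 hb.le
      linarith
    rw [hym, hzm]

/-- the weighted inequality between the geometric and arithmetic means of two numbers -/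
lemma amgm2 {b c : ℝ} (hb : 0 ≤ b) (hc : 0 ≤ c) (h : b + c = 1)
    {y z : ℝ} (hy : 0 ≤ y) (hz : 0 ≤ z) : y ^ b * z ^ c ≤ b * y + c * z :=
  Real.geom_mean_le_arith_mean2_weighted hb hc hy hz h

lemma cont_rpow {f : G → ℝ} (hf : Continuous f) (hf0 : ∀ x, 0 < f x) (q : ℝ) :
    Continuous fun x => f x ^ q :=
  hf.rpow_const fun x => Or.inl (hf0 x).ne'

lemma int_pos {f : G → ℝ} (hf : Continuous f) (hf0 : ∀ x, 0 < f x) : 0 < ∫ x, f x ∂μ := by
  rw [integral_pos_iff_support_of_nonneg (fun y => (hf0 y).le) (integrable_of_cont hf)]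
  have : Function.support f = Set.univ := by
    ext y
    simp [(hf0 y).ne']
  rw [this]
  simp

lemma int_shift {u : G → ℝ} (x : G) : ∫ y, u (y⁻¹ * x) ∂μ = ∫ y, u y ∂μ := by
  rw [← integral_inv_eq_self (μ := μ) (fun y => u (y⁻¹ * x))]
  simp only [inv_inv]
  exact integral_mul_right_eq_self (μ := μ) u x

lemma int_conv {f u : G → ℝ} (hf : Continuous f) (hu : Continuous u) :
    ∫ x, conv μ f u x ∂μ = (∫ x, f x ∂μ) * ∫ x, u x ∂μ := by
  unfold conv
  have hc : Continuous fun p : G × G => f p.2 * u (p.2⁻¹ * p.1) :=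
    (hf.comp continuous_snd).mul (hu.comp ((continuous_snd.inv).mul continuous_fst))
  rw [integral_integral_swap (hc.integrable_of_hasCompactSupport
    (HasCompactSupport.of_compactSpace _))]
  have : ∀ y, ∫ x, f y * u (y⁻¹ * x) ∂μ = f y * ∫ x, u x ∂μ := by
    intro y
    rw [integral_const_mul, integral_mul_left_eq_self (μ := μ) u y⁻¹]
  simp_rw [this]
  rw [integral_mul_const]

/-- Young's inequality for functions with norms at most `1`. -/
lemma young {f u : G → ℝ} (hf : Continuous f) (hu : Continuous u) (hf0 : ∀ x, 0 < f x)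
    (hu0 : ∀ x, 0 < u x) {q r a b c : ℝ} (ha : 0 < a) (hb : 0 < b) (hc : 0 < c)
    (h : a + b + c = 1) (hq : q * (a + b) = 1) (hr : r * (a + c) = 1)
    (hF : ∫ x, f x ^ q ∂μ ≤ 1) (hU : ∫ x, u x ^ r ∂μ ≤ 1) :
    ∫ x, conv μ f u x ^ (1 / a) ∂μ ≤ 1 ∧
      (μ.IsOpenPosMeasure → ∫ x, conv μ f u x ^ (1 / a) ∂μ = 1 →
        ∃ c : ℝ, ∀ x, f x = c) := by
  have hfq := cont_rpow hf hf0 q
  have hur := cont_rpow hu hu0 r
  have hfq0 : ∀ x, 0 < f x ^ q := fun x => Real.rpow_pos_of_pos (hf0 x) _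
  have hur0 : ∀ x, 0 < u x ^ r := fun x => Real.rpow_pos_of_pos (hu0 x) _
  set T : G → ℝ := conv μ (fun y => f y ^ q) (fun y => u y ^ r) with hT
  have hT0 : ∀ x, 0 < T x := fun x => conv_pos hfq hur hfq0 hur0 x
  have hTc : Continuous T := cont_conv hfq hur
  have hTint : ∫ x, T x ∂μ ≤ 1 := by
    rw [hT, int_conv hfq hur]
    have h1 := int_pos (μ := μ) hfq hfq0
    have h2 := int_pos (μ := μ) hur hur0
    nlinarith
  -- the pointwise inequality
  have pt : ∀ x y, f y * u (y⁻¹ * x) = T x ^ a *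
      ((f y ^ q * u (y⁻¹ * x) ^ r / T x) ^ a * (f y ^ q) ^ b * (u (y⁻¹ * x) ^ r) ^ c) := by
    intro x y
    have e1 : (f y ^ q * u (y⁻¹ * x) ^ r / T x) ^ a =
        (f y ^ q) ^ a * (u (y⁻¹ * x) ^ r) ^ a / T x ^ a := by
      rw [Real.div_rpow (mul_pos (hfq0 y) (hur0 _)).le (hT0 x).le,
        Real.mul_rpow (hfq0 y).le (hur0 _).le]
    have e2 : (f y ^ q) ^ a * (f y ^ q) ^ b = f y := by
      rw [← Real.rpow_add (hfq0 y), ← Real.rpow_mul (hf0 y).le, hq, Real.rpow_one]
    have e3 : (u (y⁻¹ * x) ^ r) ^ a * (u (y⁻¹ * x) ^ r) ^ c = u (y⁻¹ * x) := by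
      rw [← Real.rpow_add (hur0 _), ← Real.rpow_mul (hu0 _).le, hr, Real.rpow_one]
    have hTa : T x ^ a ≠ 0 := (Real.rpow_pos_of_pos (hT0 x) a).ne'
    rw [e1]
    calc f y * u (y⁻¹ * x) = ((f y ^ q) ^ a * (f y ^ q) ^ b) *
          ((u (y⁻¹ * x) ^ r) ^ a * (u (y⁻¹ * x) ^ r) ^ c) := by rw [e2, e3]
      _ = _ := by field_simp
  have hle : ∀ x y, f y * u (y⁻¹ * x) ≤ T x ^ a *
      (a * (f y ^ q * u (y⁻¹ * x) ^ r / T x) + b * f y ^ q + c * u (y⁻¹ * x) ^ r) := by
    intro x y
    rw [pt x y]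
    exact mul_le_mul_of_nonneg_left (amgm3 ha hb hc h
      (div_pos (mul_pos (hfq0 y) (hur0 _)) (hT0 x)) (hfq0 y) (hur0 _)).1
      (Real.rpow_pos_of_pos (hT0 x) a).le
  have hRc : ∀ x, Continuous fun y => T x ^ a *
      (a * (f y ^ q * u (y⁻¹ * x) ^ r / T x) + b * f y ^ q + c * u (y⁻¹ * x) ^ r) := by
    intro x
    have h1 : Continuous fun y => u (y⁻¹ * x) ^ r :=
      hur.comp (continuous_inv.mul continuous_const)
    exact continuous_const.mul (((continuous_const.mul ((hfq.mul h1).div_const _)).add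
      (continuous_const.mul hfq)).add (continuous_const.mul h1))
  have hLc : ∀ x, Continuous fun y => f y * u (y⁻¹ * x) := fun x =>
    hf.mul (hu.comp (continuous_inv.mul continuous_const))
  have hRint : ∀ x, ∫ y, T x ^ a *
      (a * (f y ^ q * u (y⁻¹ * x) ^ r / T x) + b * f y ^ q + c * u (y⁻¹ * x) ^ r) ∂μ
      ≤ T x ^ a := by
    intro x
    have h1 : Continuous fun y => u (y⁻¹ * x) ^ r :=
      hur.comp (continuous_inv.mul continuous_const)
    have i1 : Integrable (fun y => a * (f y ^ q * u (y⁻¹ * x) ^ r / T x)) μ :=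
      integrable_of_cont (continuous_const.mul ((hfq.mul h1).div_const _))
    have i2 : Integrable (fun y => b * f y ^ q) μ :=
      integrable_of_cont (continuous_const.mul hfq)
    have i3 : Integrable (fun y => c * u (y⁻¹ * x) ^ r) μ :=
      integrable_of_cont (continuous_const.mul h1)
    have i12 : Integrable (fun y => a * (f y ^ q * u (y⁻¹ * x) ^ r / T x) + b * f y ^ q) μ :=
      i1.add i2
    rw [integral_const_mul, integral_add i12 i3, integral_add i1 i2,
      integral_const_mul, integral_const_mul, integral_const_mul, integral_div,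
      int_shift (μ := μ) (u := fun z => u z ^ r) x]
    have e1 : ∫ y, f y ^ q * u (y⁻¹ * x) ^ r ∂μ = T x := rfl
    rw [e1, div_self (hT0 x).ne', mul_one]
    have h2 : a + b * ∫ y, f y ^ q ∂μ + c * ∫ y, u y ^ r ∂μ ≤ 1 := by nlinarith
    calc T x ^ a * (a + b * ∫ y, f y ^ q ∂μ + c * ∫ y, u y ^ r ∂μ) ≤ T x ^ a * 1 :=
          mul_le_mul_of_nonneg_left h2 (Real.rpow_pos_of_pos (hT0 x) a).le
      _ = T x ^ a := mul_one _
  have hv : ∀ x, conv μ f u x ≤ T x ^ a := by
    intro x
    refine le_trans ?_ (hRint x)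
    exact integral_mono (integrable_of_cont (hLc x)) (integrable_of_cont (hRc x)) (hle x)
  have hv0 : ∀ x, 0 < conv μ f u x := fun x => conv_pos (μ := μ) hf hu hf0 hu0 x
  have hvc : Continuous (conv μ f u) := cont_conv (μ := μ) hf hu
  have hva : ∀ x, conv μ f u x ^ (1 / a) ≤ T x := by
    intro x
    calc conv μ f u x ^ (1 / a) ≤ (T x ^ a) ^ (1 / a) :=
          Real.rpow_le_rpow (hv0 x).le (hv x) (by positivity)
      _ = T x := by
          rw [← Real.rpow_mul (hT0 x).le, mul_one_div_cancel ha.ne', Real.rpow_one]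
  have hvac := cont_rpow hvc hv0 (1 / a)
  refine ⟨(integral_mono (integrable_of_cont hvac) (integrable_of_cont hTc) hva).trans hTint,
    fun hop heq => ?_⟩
  -- the case of equality
  have hD : ∫ x, (T x - conv μ f u x ^ (1 / a)) ∂μ = 0 := by
    rw [integral_sub (integrable_of_cont hTc) (integrable_of_cont hvac), heq]
    have h5 : ∫ x, conv μ f u x ^ (1 / a) ∂μ ≤ ∫ x, T x ∂μ :=
      integral_mono (integrable_of_cont hvac) (integrable_of_cont hTc) hva
    rw [heq] at h5
    linarith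
  have hTe : ∀ x, T x = conv μ f u x ^ (1 / a) := by
    have h1 := (integral_eq_zero_iff_of_nonneg (fun x => sub_nonneg.2 (hva x))
      (integrable_of_cont (hTc.sub hvac))).1 hD
    have h2 := (Continuous.ae_eq_iff_eq μ (hTc.sub hvac) continuous_const).1 h1
    intro x
    have := congrFun h2 x
    simp only [Pi.sub_apply] at this
    have h3 : T x - conv μ f u x ^ (1 / a) = 0 := this
    linarith
  have hve : ∀ x, conv μ f u x = T x ^ a := by
    intro x
    rw [hTe x, ← Real.rpow_mul (hv0 x).le, one_div_mul_cancel ha.ne', Real.rpow_one]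
  have hpt : ∀ x y, f y * u (y⁻¹ * x) = T x ^ a *
      (a * (f y ^ q * u (y⁻¹ * x) ^ r / T x) + b * f y ^ q + c * u (y⁻¹ * x) ^ r) := by
    intro x
    have h0 : ∫ y, (T x ^ a *
        (a * (f y ^ q * u (y⁻¹ * x) ^ r / T x) + b * f y ^ q + c * u (y⁻¹ * x) ^ r) -
        f y * u (y⁻¹ * x)) ∂μ = 0 := by
      refine le_antisymm ?_ (integral_nonneg fun y => sub_nonneg.2 (hle x y))
      rw [integral_sub (integrable_of_cont (hRc x)) (integrable_of_cont (hLc x))]
      have h1 : ∫ y, f y * u (y⁻¹ * x) ∂μ = T x ^ a := hve x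
      rw [h1]
      linarith [hRint x]
    have h1 := (integral_eq_zero_iff_of_nonneg (fun y => sub_nonneg.2 (hle x y))
      (integrable_of_cont ((hRc x).sub (hLc x)))).1 h0
    have h2 := (Continuous.ae_eq_iff_eq μ ((hRc x).sub (hLc x)) continuous_const).1 h1
    intro y
    have h3 := congrFun h2 y
    have h4 : T x ^ a *
        (a * (f y ^ q * u (y⁻¹ * x) ^ r / T x) + b * f y ^ q + c * u (y⁻¹ * x) ^ r) -
        f y * u (y⁻¹ * x) = 0 := h3
    linarith
  have hfu : ∀ x y, f y ^ q = u (y⁻¹ * x) ^ r := by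
    intro x y
    refine (amgm3 ha hb hc h (div_pos (mul_pos (hfq0 y) (hur0 (y⁻¹ * x))) (hT0 x)) (hfq0 y)
      (hur0 (y⁻¹ * x))).2 ?_
    have h1 := hpt x y
    rw [pt x y] at h1
    exact mul_left_cancel₀ (Real.rpow_pos_of_pos (hT0 x) a).ne' h1
  refine ⟨f 1, fun x => ?_⟩
  have h1 : f x ^ q = f 1 ^ q := by
    rw [hfu x x, hfu 1 1]
    simp
  have hq0 : q ≠ 0 := by
    intro h0
    rw [h0, zero_mul] at hq
    exact zero_ne_one hq
  have h2 : (f x ^ q) ^ (1 / q) = (f 1 ^ q) ^ (1 / q) := by rw [h1]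
  rwa [← Real.rpow_mul (hf0 x).le, ← Real.rpow_mul (hf0 1).le, mul_one_div_cancel hq0,
    Real.rpow_one, Real.rpow_one] at h2

omit [SecondCountableTopology G] in
lemma cpw_scale (t : ℝ) (f : G → ℝ) : ∀ n, cpw μ (fun x => t * f x) n =
    fun x => t ^ (n + 1) * cpw μ f n x
  | 0 => by
    funext x
    show t * f x = _
    simp [cpw]
  | n + 1 => by
    funext x
    show conv μ (fun x => t * f x) (cpw μ (fun x => t * f x) n) x = _
    rw [cpw_scale t f n]
    show ∫ y, t * f y * (t ^ (n + 1) * cpw μ f n (y⁻¹ * x)) ∂μ =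
      t ^ (n + 1 + 1) * ∫ y, f y * cpw μ f n (y⁻¹ * x) ∂μ
    rw [← integral_const_mul]
    refine integral_congr_ae (Filter.Eventually.of_forall fun y => ?_)
    beta_reduce
    ring

lemma cpw_cont {f : G → ℝ} (hf : Continuous f) : ∀ n, Continuous (cpw μ f n)
  | 0 => hf
  | n + 1 => cont_conv hf (cpw_cont hf n)

lemma cpw_pos {f : G → ℝ} (hf : Continuous f) (hf0 : ∀ x, 0 < f x) :
    ∀ n x, 0 < cpw μ f n x
  | 0 => hf0
  | n + 1 => conv_pos hf (cpw_cont hf n) hf0 (cpw_pos hf hf0 n)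

/-- the norms of the convolutions of at most `s` factors -/
lemma cpw_norm {f : G → ℝ} (hf : Continuous f) (hf0 : ∀ x, 0 < f x) {s : ℕ} (hs : 1 ≤ s)
    (hF : ∫ x, f x ^ (((s : ℝ) + 1) / s) ∂μ ≤ 1) : ∀ k : ℕ, k < s →
      ∫ x, cpw μ f k x ^ (((s : ℝ) + 1) / (s - k)) ∂μ ≤ 1 := by
  intro k
  induction k with
  | zero =>
    intro _
    simpa [cpw] using hF
  | succ k ih =>
    intro hk
    have ih' := ih (by omega)
    have hs0 : (0 : ℝ) < s := by exact_mod_cast hs
    have hk' : ((k : ℝ) + 1) < s := by exact_mod_cast hk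
    have hk0 : (0 : ℝ) ≤ k := k.cast_nonneg
    have h1 := (young (μ := μ) hf (cpw_cont hf k) hf0 (cpw_pos hf hf0 k)
      (q := ((s : ℝ) + 1) / s) (r := ((s : ℝ) + 1) / (s - k))
      (a := ((s : ℝ) - (k + 1)) / (s + 1)) (b := ((k : ℝ) + 1) / (s + 1)) (c := 1 / ((s : ℝ) + 1))
      (div_pos (by linarith) (by linarith)) (by positivity) (by positivity)
      (by field_simp; ring) (by field_simp; ring)
      (by
        have : (s : ℝ) - k ≠ 0 := by linarith
        field_simp
        ring) hF ih').1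
    rw [one_div_div] at h1
    push_cast
    exact h1

/-- Young's inequality at the identity, with normalised functions. -/
lemma cpw_one_le {f : G → ℝ} (hf : Continuous f) (hf0 : ∀ x, 0 < f x) {s : ℕ} (hs : 1 ≤ s)
    (hF : ∫ x, f x ^ (((s : ℝ) + 1) / s) ∂μ ≤ 1) :
    cpw μ f s 1 ≤ 1 ∧ (μ.IsOpenPosMeasure → 2 ≤ s → cpw μ f s 1 = 1 → ∃ c : ℝ, ∀ x, f x = c) := by
  obtain ⟨n, rfl⟩ : ∃ n, s = n + 1 := ⟨s - 1, by omega⟩
  have hs0 : (0 : ℝ) < ((n + 1 : ℕ) : ℝ) := by positivity
  set σ : ℝ := ((n + 1 : ℕ) : ℝ) with hσ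
  have hU := cpw_norm hf hf0 hs hF n (by omega)
  have hexp : (σ + 1) / (σ - n) = σ + 1 := by
    have : σ - n = 1 := by rw [hσ]; push_cast; ring
    rw [this, div_one]
  rw [← hσ, hexp] at hU
  have hu0 := cpw_pos (μ := μ) hf hf0 n
  have huc := cpw_cont (μ := μ) hf n
  have hle : ∀ y, f y * cpw μ f n (y⁻¹ * 1) ≤ σ / (σ + 1) * f y ^ ((σ + 1) / σ) +
      1 / (σ + 1) * cpw μ f n (y⁻¹ * 1) ^ (σ + 1) := by
    intro y
    have h1 := amgm2 (b := σ / (σ + 1)) (c := 1 / (σ + 1)) (by positivity) (by positivity)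
      (by field_simp) (Real.rpow_nonneg (hf0 y).le ((σ + 1) / σ))
      (Real.rpow_nonneg (hu0 (y⁻¹ * 1)).le (σ + 1))
    rw [← Real.rpow_mul (hf0 y).le, ← Real.rpow_mul (hu0 _).le] at h1
    have e1 : (σ + 1) / σ * (σ / (σ + 1)) = 1 := by field_simp
    have e2 : (σ + 1) * (1 / (σ + 1)) = 1 := by field_simp
    rwa [e1, e2, Real.rpow_one, Real.rpow_one] at h1
  have c1 := cont_rpow hf hf0 ((σ + 1) / σ)
  have c2 := cont_rpow huc hu0 (σ + 1)
  have c3 : Continuous fun y => cpw μ f n (y⁻¹ * 1) ^ (σ + 1) :=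
    c2.comp (continuous_inv.mul continuous_const)
  have i1 : Integrable (fun y => σ / (σ + 1) * f y ^ ((σ + 1) / σ)) μ :=
    integrable_of_cont (continuous_const.mul c1)
  have i2 : Integrable (fun y => 1 / (σ + 1) * cpw μ f n (y⁻¹ * 1) ^ (σ + 1)) μ :=
    integrable_of_cont (continuous_const.mul c3)
  have i0 : Integrable (fun y => f y * cpw μ f n (y⁻¹ * 1)) μ :=
    integrable_of_cont (hf.mul (huc.comp (continuous_inv.mul continuous_const)))
  have hmain : cpw μ f (n + 1) 1 ≤ σ / (σ + 1) * ∫ y, f y ^ ((σ + 1) / σ) ∂μ +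
      1 / (σ + 1) * ∫ y, cpw μ f n y ^ (σ + 1) ∂μ := by
    calc cpw μ f (n + 1) 1 = ∫ y, f y * cpw μ f n (y⁻¹ * 1) ∂μ := rfl
      _ ≤ ∫ y, (σ / (σ + 1) * f y ^ ((σ + 1) / σ) +
          1 / (σ + 1) * cpw μ f n (y⁻¹ * 1) ^ (σ + 1)) ∂μ := integral_mono i0 (i1.add i2) hle
      _ = _ := by
          rw [integral_add i1 i2, integral_const_mul, integral_const_mul,
            int_shift (μ := μ) (u := fun z => cpw μ f n z ^ (σ + 1)) 1]
  have hsum : σ / (σ + 1) + 1 / (σ + 1) = 1 := by field_simp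
  have p1 : 0 < σ / (σ + 1) := by positivity
  have p2 : 0 < 1 / (σ + 1) := by positivity
  refine ⟨?_, fun hop h2 heq => ?_⟩
  · nlinarith
  · have h3 : ∫ y, cpw μ f n y ^ (σ + 1) ∂μ = 1 := by
      rw [heq] at hmain
      refine le_antisymm hU ?_
      by_contra hlt
      rw [not_le] at hlt
      nlinarith
    obtain ⟨m, rfl⟩ : ∃ m, n = m + 1 := ⟨n - 1, by omega⟩
    have hm := cpw_norm hf hf0 hs hF m (by omega)
    rw [← hσ] at hm
    have hσm : σ = (m : ℝ) + 2 := by rw [hσ]; push_cast; ring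
    have hm0 : (0 : ℝ) ≤ m := m.cast_nonneg
    have h4 := (young (μ := μ) hf (cpw_cont hf m) hf0 (cpw_pos hf hf0 m)
      (q := (σ + 1) / σ) (r := (σ + 1) / (σ - m))
      (a := 1 / (σ + 1)) (b := ((m : ℝ) + 1) / (σ + 1)) (c := 1 / (σ + 1))
      (by positivity) (by positivity) (by positivity)
      (by rw [hσm]; field_simp; ring) (by rw [hσm]; field_simp; ring)
      (by rw [hσm]; field_simp; ring) hF hm).2 hop
    apply h4
    rw [one_div_one_div]
    exact h3

/-- **The `a`-function is nonnegative**, and zero for the constant functions only. -/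
theorem aMK_young {f : G → ℝ} (hf : Continuous f) (hf0 : ∀ x, 0 < f x) {s p : ℕ} (hp : 1 ≤ p)
    (hps : p ≤ s) :
    0 ≤ aMK μ s p f ∧
      (μ.IsOpenPosMeasure → 2 ≤ s → (aMK μ s p f = 0 ↔ ∃ c : ℝ, ∀ x, f x = c)) := by
  have hs : 1 ≤ s := hp.trans hps
  have hs0 : (0 : ℝ) < s := by exact_mod_cast hs
  have hp0 : (0 : ℝ) < p := by exact_mod_cast hp
  have hps' : (p : ℝ) ≤ s := by exact_mod_cast hps
  -- the two integrals
  have cZ := cont_rpow hf hf0 (((s : ℝ) + 1) / s)
  have cW := cont_rpow hf hf0 (((p : ℝ) + 1) / p)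
  set Z : ℝ := ∫ x, f x ^ (((s : ℝ) + 1) / s) ∂μ with hZ
  set W : ℝ := ∫ x, f x ^ (((p : ℝ) + 1) / p) ∂μ with hW
  have Z0 : 0 < Z := int_pos cZ fun x => Real.rpow_pos_of_pos (hf0 x) _
  have W0 : 0 < W := int_pos cW fun x => Real.rpow_pos_of_pos (hf0 x) _
  -- Jensen
  set θ : ℝ := (((s : ℝ) + 1) / s) * (p / ((p : ℝ) + 1)) with hθ
  have hθ0 : 0 < θ := by positivity
  have hθ1 : θ ≤ 1 := by
    rw [hθ, div_mul_div_comm, div_le_one (by positivity)]
    nlinarith
  have hJ : Z ≤ W ^ θ := by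
    have hpt : ∀ x, f x ^ (((s : ℝ) + 1) / s) ≤
        W ^ θ * (θ * (f x ^ (((p : ℝ) + 1) / p) / W) + (1 - θ)) := by
      intro x
      have hx := Real.rpow_pos_of_pos (hf0 x) (((p : ℝ) + 1) / p)
      have h1 := amgm2 (b := θ) (c := 1 - θ) hθ0.le (by linarith) (by ring)
        (div_nonneg hx.le W0.le) zero_le_one
      rw [Real.one_rpow, mul_one, mul_one] at h1
      have h2 : f x ^ (((s : ℝ) + 1) / s) = W ^ θ * (f x ^ (((p : ℝ) + 1) / p) / W) ^ θ := by
        rw [Real.div_rpow hx.le W0.le, ← Real.rpow_mul (hf0 x).le]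
        have e1 : ((p : ℝ) + 1) / p * θ = ((s : ℝ) + 1) / s := by
          rw [hθ]
          field_simp
        rw [e1]
        have := (Real.rpow_pos_of_pos W0 θ).ne'
        field_simp
      rw [h2]
      exact mul_le_mul_of_nonneg_left h1 (Real.rpow_pos_of_pos W0 θ).le
    have i1 : Integrable (fun x => θ * (f x ^ (((p : ℝ) + 1) / p) / W)) μ :=
      integrable_of_cont (continuous_const.mul (cW.div_const _))
    calc Z ≤ ∫ x, W ^ θ * (θ * (f x ^ (((p : ℝ) + 1) / p) / W) + (1 - θ)) ∂μ :=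
          integral_mono (integrable_of_cont cZ) ((i1.add (integrable_const _)).const_mul _) hpt
      _ = W ^ θ := by
          rw [integral_const_mul, integral_add i1 (integrable_const _), integral_const_mul,
            integral_div, ← hW, div_self W0.ne']
          simp
  -- the normalised function
  set t : ℝ := Z ^ (-((s : ℝ) / (s + 1))) with ht
  have t0 : 0 < t := Real.rpow_pos_of_pos Z0 _
  have hg0 : ∀ x, 0 < t * f x := fun x => mul_pos t0 (hf0 x)
  have hgc : Continuous fun x => t * f x := continuous_const.mul hf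
  have hgF : ∫ x, (t * f x) ^ (((s : ℝ) + 1) / s) ∂μ ≤ 1 := by
    have h1 : ∀ x, (t * f x) ^ (((s : ℝ) + 1) / s) =
        t ^ (((s : ℝ) + 1) / s) * f x ^ (((s : ℝ) + 1) / s) := fun x =>
      Real.mul_rpow t0.le (hf0 x).le
    simp_rw [h1]
    rw [integral_const_mul, ← hZ, ht, ← Real.rpow_mul Z0.le]
    have e1 : -((s : ℝ) / (s + 1)) * ((s + 1) / s) = -1 := by field_simp
    rw [e1, Real.rpow_neg_one, inv_mul_cancel₀ Z0.ne']
  obtain ⟨hle, heq⟩ := cpw_one_le (μ := μ) hgc hg0 hs hgF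
  have hB0 := cpw_pos (μ := μ) hf hf0 s 1
  have hscale : cpw μ (fun x => t * f x) s 1 = t ^ (s + 1) * cpw μ f s 1 := by
    rw [cpw_scale]
  have hlogt : Real.log (t ^ (s + 1) * cpw μ f s 1) = Real.log (cpw μ f s 1) -
      s * Real.log Z := by
    rw [Real.log_mul (by positivity) hB0.ne', Real.log_pow, ht, Real.log_rpow Z0]
    push_cast
    field_simp
    ring
  have hlogZ : s * Real.log Z ≤ p * (s + 1) / (p + 1) * Real.log W := by
    have h1 := Real.log_le_log Z0 hJ
    rw [Real.log_rpow W0] at h1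
    calc (s : ℝ) * Real.log Z ≤ s * (θ * Real.log W) := mul_le_mul_of_nonneg_left h1 hs0.le
      _ = _ := by
          rw [hθ]
          field_simp
  rw [hscale] at hle heq
  have hlog1 : Real.log (cpw μ f s 1) ≤ s * Real.log Z := by
    have h1 := Real.log_le_log (mul_pos (pow_pos t0 _) hB0) hle
    rw [hlogt, Real.log_one] at h1
    linarith
  have haMK : aMK μ s p f = p * (s + 1) / (p + 1) * Real.log W - Real.log (cpw μ f s 1) := rfl
  refine ⟨by rw [haMK]; linarith, fun hop h2 => ⟨fun h0 => ?_, ?_⟩⟩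
  · have h3 : Real.log (t ^ (s + 1) * cpw μ f s 1) = 0 := by
      rw [hlogt]
      rw [haMK] at h0
      linarith
    have h4 : t ^ (s + 1) * cpw μ f s 1 = 1 :=
      Real.eq_one_of_pos_of_log_eq_zero (mul_pos (pow_pos t0 _) hB0) h3
    obtain ⟨c, hc⟩ := heq hop h2 h4
    refine ⟨c / t, fun x => ?_⟩
    rw [eq_div_iff t0.ne', mul_comm]
    exact hc x
  · rintro ⟨c, hc⟩
    have c0 : 0 < c := by rw [← hc 1]; exact hf0 1
    have hcp : ∀ n x, cpw μ f n x = c ^ (n + 1) := by
      intro n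
      induction n with
      | zero => intro x; simpa [cpw] using hc x
      | succ n ih =>
        intro x
        show ∫ y, f y * cpw μ f n (y⁻¹ * x) ∂μ = _
        simp_rw [ih, hc]
        simp
        ring
    rw [haMK, hcp s 1, hW]
    simp_rw [hc]
    simp only [integral_const, probReal_univ, one_smul]
    rw [Real.log_rpow c0, Real.log_pow]
    push_cast
    field_simp
    ring

end

end Pool.Agent.N565.AT
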